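import Pool.Agent.P.MP_1bff7a_co.Sq4

namespace Pool.Agent.Results.MP_1bff7a_co.SqrtLog

open Pool.Agent.P.MP_1bff7a_co

/-- Every cycle-free 0-1 pattern `P` has `Ex(P,n) ≤ n * 2 ^ (C * sqrt (log₂ n))` for a constant
`C` depending only on `P` and all `n ≥ 1`. -/
theorem result : ∀ (k l : ℕ) (P : Matrix (Fin k) (Fin l) Bool), (rowColGraph P).IsAcyclic →
    ∃ C : ℝ, ∀ n : ℕ, 1 ≤ n → (Ex P n : ℝ) ≤ (n : ℝ) * (2 : ℝ) ^ (C * √(Real.logb 2 (n : ℝ))) :=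
  fun _ _ P hP => sqrt_bound P hP

end Pool.Agent.Results.MP_1bff7a_co.SqrtLog
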